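import Pool.Agent.Lib.MP_fe8cb7_co.h48.Fin
import Pool.Agent.Lib.MP_fe8cb7_co.h77.Asm5
import Pool.Agent.Lib.MP_fe8cb7_co.h2.Upper

/-!
# Daykin-Haggkvist problem: the optimal value is `1/4`
-/

namespace DH

/-- every `α < 1/4` is admissible -/
theorem admissible_of_lt (α : ℝ) (hα : α < 1 / 4) : Admissible α := by
  have h1 : (α + 1 / 4) / 2 < 1 / 4 := by linarith
  refine admissible_of_fracB ((α + 1 / 4) / 2) (9 / (1 - 4 * ((α + 1 / 4) / 2))) ?_ h1
    (fracB_of_lt _ h1) α (by linarith)
  have : 0 < 1 - 4 * ((α + 1 / 4) / 2) := by linarith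
  positivity

/-- the supremum of the admissible `α` is `1/4` -/
theorem isLUB_admissible : IsLUB {α : ℝ | Admissible α} (1 / 4) := by
  constructor
  · intro α hα
    by_contra hcon
    push Not at hcon
    exact not_admissible α hcon hα
  · intro b hb
    by_contra hcon
    push Not at hcon
    have h1 : (b + 1 / 4) / 2 < 1 / 4 := by linarith
    have := hb (admissible_of_lt _ h1)
    linarith

end DH
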