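import Pool.Agent.Lib.MP_fe8cb7_co.h48.Dual

/-!
# Fractional triangle decomposition at the exact degree bound `3 N / 4`
-/

open Finset Filter Topology

namespace FTri

variable {V : Type*} [Fintype V]

open Classical in
/-- FRACTIONAL TRIANGLE DECOMPOSITION, digraph form, at the exact minimum degree `3 N / 4` -/
theorem exists_weights_exact (E : V → V → Prop) {N e : ℝ}
    (hbal : ∀ x, ((univ.filter fun y => E x y).card : ℝ) = (univ.filter fun z => E z x).card)
    (hmin : ∀ x, e ≤ (univ.filter fun y => E x y).card)
    (hes : 3 * N ≤ 4 * e)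
    (hcn : ∀ x y, E x y → ((univ.filter fun w => E x w).card : ℝ) +
      (univ.filter fun w => E y w).card - N ≤ (univ.filter fun z => E y z ∧ E z x).card) :
    ∃ g : V → V → V → ℝ, (∀ x y z, 0 ≤ g x y z) ∧
      (∀ x y z, g x y z = g y z x) ∧
      (∀ x y z, g x y z ≠ 0 → E x y ∧ E y z ∧ E z x) ∧
      ∀ x y, E x y → ∑ z, g x y z = 1 := by
  obtain ⟨cap, hcap⟩ : ∃ cap : ℝ, cap = 1 := ⟨_, rfl⟩
  have hcap0 : 0 < cap := by rw [hcap]; norm_num
  obtain ⟨W, hW, hWmin⟩ := exists_box_min E hcap0.le
  obtain ⟨f, hf⟩ : ∃ f, f = err E W := ⟨_, rfl⟩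
  have hfE : ∀ x y, E x y → f x y = lod W x y - 1 := fun x y h => by
    rw [hf]; unfold err; rw [if_pos h]
  have hlod0 : ∀ x y, 0 ≤ lod W x y := fun x y => by
    unfold lod
    exact Finset.sum_nonneg fun z _ => add_nonneg (add_nonneg (hW.nonneg _ _ _) (hW.nonneg _ _ _))
      (hW.nonneg _ _ _)
  have hf1 : ∀ x y, -1 ≤ f x y := fun x y => by
    by_cases h : E x y
    · rw [hfE x y h]; linarith [hlod0 x y]
    · rw [hf]; unfold err; rw [if_neg h]; norm_num
  -- (i) triangles below the cap have nonnegative error
  have h1 : ∀ a b c, E a b → E b c → E c a → W a b c < cap → 0 ≤ f a b + f b c + f c a := by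
    intro a b c hab hbc hca hlt
    have := box_first_order (W := W) (δ := fun x y z => if x = a ∧ y = b ∧ z = c then 1 else 0)
      hWmin (ε0 := cap - W a b c) (by linarith) (by
        intro ε he he'
        refine ⟨fun x y z => ?_, fun x y z => ?_, fun x y z hn => ?_⟩
        · have := hW.nonneg x y z
          split_ifs <;> linarith
        · split_ifs with hh
          · obtain ⟨rfl, rfl, rfl⟩ := hh
            linarith
          · have := hW.le x y z
            linarith
        · rw [if_neg]
          · rw [hW.supp x y z hn]; ring
          · rintro ⟨rfl, rfl, rfl⟩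
            exact hn ⟨hab, hbc, hca⟩)
    rw [← hf] at this
    have e1 : ∑ x, ∑ y, ∑ z, (if x = a ∧ y = b ∧ z = c then (1 : ℝ) else 0)
        * (f x y + f y z + f z x) = f a b + f b c + f c a := by
      rw [Finset.sum_eq_single a, Finset.sum_eq_single b, Finset.sum_eq_single c]
      · simp
      · intro z _ hz; simp [hz]
      · intro h; exact absurd (Finset.mem_univ _) h
      · intro y _ hy
        exact Finset.sum_eq_zero fun z _ => by simp [hy]
      · intro h; exact absurd (Finset.mem_univ _) h
      · intro x _ hx
        exact Finset.sum_eq_zero fun y _ => Finset.sum_eq_zero fun z _ => by simp [hx]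
      · intro h; exact absurd (Finset.mem_univ _) h
    rw [e1] at this
    exact this
  -- (ii) the direction `-W`
  have h2 : ∑ x, ∑ y, f x y * lod W x y ≤ 0 := by
    have := box_first_order (W := W) (δ := fun x y z => -W x y z)
      hWmin (ε0 := 1) one_pos (by
        intro ε he he'
        refine ⟨fun x y z => ?_, fun x y z => ?_, fun x y z hn => ?_⟩
        · have := hW.nonneg x y z
          nlinarith
        · have := hW.le x y z
          have := hW.nonneg x y z
          nlinarith
        · rw [hW.supp x y z hn]; ring)
    rw [← sum_lod, ← hf] at this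
    have e1 : ∀ x y, lod (fun x y z => -W x y z) x y = -lod W x y := by
      intro x y
      unfold lod
      rw [← Finset.sum_neg_distrib]
      refine Finset.sum_congr rfl fun z _ => ?_
      ring
    have e2 : ∑ x, ∑ y, f x y * lod (fun x y z => -W x y z) x y
        = -∑ x, ∑ y, f x y * lod W x y := by
      rw [← Finset.sum_neg_distrib]
      refine Finset.sum_congr rfl fun x _ => ?_
      rw [← Finset.sum_neg_distrib]
      refine Finset.sum_congr rfl fun y _ => ?_
      rw [e1]; ring
    rw [e2] at this
    linarith
  -- the Farkas inequality for the good triangles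
  obtain ⟨TT, hTT⟩ : ∃ TT : V → V → V → Prop, ∀ x y z, TT x y z ↔ ((E x y ∧ E y z ∧ E z x) ∧
      0 ≤ f x y + f y z + f z x) := ⟨_, fun _ _ _ => Iff.rfl⟩
  have h3 := farkas (E := E) (TT := TT) (f := f) (s := N) (e := e)
    (fun x y z h => ((hTT x y z).1 h).1.1)
    (fun x y z h => by
      obtain ⟨⟨a1, a2, a3⟩, a4⟩ := (hTT x y z).1 h
      exact (hTT y z x).2 ⟨⟨a2, a3, a1⟩, by linarith⟩)
    (fun x y z h => ((hTT x y z).1 h).2) hbal hmin hes (by
      intro x y hxy
      -- the bad triangles
      obtain ⟨Bd, hBd⟩ : ∃ Bd : Finset V, Bd = univ.filter fun z =>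
        (E y z ∧ E z x) ∧ f x y + f y z + f z x < 0 := ⟨_, rfl⟩
      have hb : (Bd.card : ℝ) ≤ 0 := by
        rcases Bd.eq_empty_or_nonempty with h0 | ⟨z0, hz0⟩
        · rw [h0]; simp
        · have hz0' : (E y z0 ∧ E z0 x) ∧ f x y + f y z0 + f z0 x < 0 := by
            rw [hBd] at hz0; exact (Finset.mem_filter.1 hz0).2
          have hfxy : f x y < 2 := by
            have := hf1 y z0
            have := hf1 z0 x
            linarith [hz0'.2]
          have hl3 : lod W x y < 3 := by
            rw [hfE x y hxy] at hfxy; linarith
          have hsum : (Bd.card : ℝ) * (3 * cap) ≤ lod W x y := by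
            calc (Bd.card : ℝ) * (3 * cap) = ∑ z ∈ Bd, 3 * cap := by
                  rw [Finset.sum_const, nsmul_eq_mul]
              _ ≤ ∑ z ∈ Bd, (W x y z + W y z x + W z x y) := by
                  refine Finset.sum_le_sum fun z hz => ?_
                  rw [hBd] at hz
                  obtain ⟨⟨hyz, hzx⟩, hneg⟩ := (Finset.mem_filter.1 hz).2
                  have w1 : cap ≤ W x y z := by
                    by_contra hh
                    push Not at hh
                    have := h1 x y z hxy hyz hzx hh
                    linarith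
                  have w2 : cap ≤ W y z x := by
                    by_contra hh
                    push Not at hh
                    have := h1 y z x hyz hzx hxy hh
                    linarith
                  have w3 : cap ≤ W z x y := by
                    by_contra hh
                    push Not at hh
                    have := h1 z x y hzx hxy hyz hh
                    linarith
                  linarith
              _ ≤ lod W x y := by
                  unfold lod
                  refine Finset.sum_le_sum_of_subset_of_nonneg (Finset.subset_univ _) ?_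
                  intro z _ _
                  exact add_nonneg (add_nonneg (hW.nonneg _ _ _) (hW.nonneg _ _ _))
                    (hW.nonneg _ _ _)
          have h5 : (Bd.card : ℝ) * cap < 1 := by linarith
          rw [hcap, mul_one] at h5
          have h6 : Bd.card < 1 := by exact_mod_cast h5
          have h7 : Bd.card = 0 := by omega
          rw [h7]; simp
      have hsplit : ((univ.filter fun z => E y z ∧ E z x).card : ℝ)
          ≤ (univ.filter fun z => TT x y z).card + Bd.card := by
        have hsub : (univ.filter fun z => E y z ∧ E z x) ⊆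
            (univ.filter fun z => TT x y z) ∪ Bd := by
          intro z hz
          have hz' := (Finset.mem_filter.1 hz).2
          rw [Finset.mem_union, hBd, Finset.mem_filter, Finset.mem_filter]
          rcases le_or_gt 0 (f x y + f y z + f z x) with h | h
          · exact Or.inl ⟨Finset.mem_univ _, (hTT x y z).2 ⟨⟨hxy, hz'⟩, h⟩⟩
          · exact Or.inr ⟨Finset.mem_univ _, hz', h⟩
        have := (Finset.card_le_card hsub).trans (Finset.card_union_le _ _)
        exact_mod_cast this
      have h6 := hcn x y hxy
      linarith)
  -- conclusion: `f = 0` on `E`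
  have h4 : ∑ x, ∑ y, (f x y) ^ 2 ≤ 0 := by
    have e1 : ∑ x, ∑ y, (f x y) ^ 2 = ∑ x, ∑ y, f x y * lod W x y
        - ∑ x, ∑ y, if E x y then f x y else 0 := by
      rw [← Finset.sum_sub_distrib]
      refine Finset.sum_congr rfl fun x _ => ?_
      rw [← Finset.sum_sub_distrib]
      refine Finset.sum_congr rfl fun y _ => ?_
      split_ifs with h
      · rw [hfE x y h]; ring
      · have : f x y = 0 := by rw [hf]; unfold err; rw [if_neg h]
        rw [this]; ring
    rw [e1]
    linarith
  have h5 : ∀ x y, f x y = 0 := by
    have hnn : ∀ x ∈ (univ : Finset V), 0 ≤ ∑ y, (f x y) ^ 2 := fun x _ =>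
      Finset.sum_nonneg fun y _ => sq_nonneg _
    have e1 := (Finset.sum_eq_zero_iff_of_nonneg hnn).1
      (le_antisymm h4 (Finset.sum_nonneg hnn))
    intro x y
    have e2 := (Finset.sum_eq_zero_iff_of_nonneg (fun y _ => sq_nonneg (f x y))).1
      (e1 x (Finset.mem_univ x)) y (Finset.mem_univ y)
    exact pow_eq_zero_iff (two_ne_zero) |>.1 e2
  refine ⟨fun x y z => W x y z + W y z x + W z x y, fun x y z => ?_,
    fun x y z => ?_, fun x y z hne => ?_, fun x y hxy => ?_⟩
  · exact add_nonneg (add_nonneg (hW.nonneg _ _ _) (hW.nonneg _ _ _)) (hW.nonneg _ _ _)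
  · ring
  · by_contra hn
    apply hne
    show W x y z + W y z x + W z x y = 0
    rw [hW.supp x y z hn, hW.supp y z x (fun h => hn ⟨h.2.2, h.1, h.2.1⟩),
      hW.supp z x y (fun h => hn ⟨h.2.1, h.2.2, h.1⟩)]
    ring
  · have := h5 x y
    rw [hfE x y hxy] at this
    unfold lod at this
    linarith

end FTri
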