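import Pool.Agent.Lib.MP_fe8cb7_co.h48.Dual
import Pool.Agent.Lib.MP_fe8cb7_co.h77.StZ

/-!
# The fractional theorem `FracB c C0` for every `c < 1/4`
-/

open Finset

namespace DH

section

variable {V : Type} [Fintype V] [DecidableEq V] {π : V → ZMod 3} {G : SimpleGraph V}

/-- oriented edges, from each part to the next one -/
def OE (π : V → ZMod 3) (G : SimpleGraph V) (x y : V) : Prop := G.Adj x y ∧ π y = π x + 1

lemma z3_next_or_prev : ∀ a b : ZMod 3, a ≠ b → b = a + 1 ∨ a = b + 1 := by decide

lemma z3_third : ∀ a b c : ZMod 3, b = a + 1 → a ≠ c → b ≠ c → c = b + 1 ∧ a = c + 1 := by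
  decide

lemma z3_rot (a b c x y : ZMod 3) (h1 : b = a + 1) (h2 : c = b + 1) (h3 : y = x + 1) :
    (x = a → y = b) ∧ (x = b → y = c) ∧ (x = c → y = a) := by
  subst h1; subst h2; subst h3
  refine ⟨fun h => by rw [h], fun h => by rw [h], fun h => ?_⟩
  rw [h]
  have : ∀ a : ZMod 3, a + 1 + 1 + 1 = a := by decide
  exact this a

open Classical in
lemma card_OE_out (v : V) : (univ.filter fun y => OE π G v y).card = dg G v (pt π univ (π v + 1)) := by
  unfold dg nb pt OE
  rw [Finset.filter_filter]
  congr 1
  ext y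
  simp only [Finset.mem_filter, Finset.mem_univ, true_and]
  tauto

open Classical in
lemma card_OE_in (v : V) : (univ.filter fun z => OE π G z v).card = dg G v (pt π univ (π v - 1)) := by
  unfold dg nb pt OE
  rw [Finset.filter_filter]
  congr 1
  ext z
  simp only [Finset.mem_filter, Finset.mem_univ, true_and]
  rw [G.adj_comm z v]
  have : π v = π z + 1 ↔ π z = π v - 1 := by
    constructor
    · intro h; rw [h]; ring
    · intro h; rw [h]; ring
  rw [this]
  tauto

/-- a triangle with two orientations along the parts: the triples agree up to rotation -/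
lemma OE_rot_eq {g : V → V → V → ℝ} (hrot : ∀ x y z, g x y z = g y z x) {a b c x y z : V}
    (hab : π b = π a + 1) (hbc : π c = π b + 1)
    (hxy : π y = π x + 1) (hyz : π z = π y + 1)
    (heq : ({x, y, z} : Finset V) = {a, b, c}) : g x y z = g a b c := by
  have ne1 : ∀ t : ZMod 3, t + 1 ≠ t := by decide
  have ne2 : ∀ t : ZMod 3, t + 1 + 1 ≠ t := by decide
  have e3 : ∀ t : ZMod 3, t + 1 + 1 + 1 = t := by decide
  have hx : x ∈ ({a, b, c} : Finset V) := by rw [← heq]; simp
  have hy : y ∈ ({a, b, c} : Finset V) := by rw [← heq]; simp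
  have hz : z ∈ ({a, b, c} : Finset V) := by rw [← heq]; simp
  simp only [Finset.mem_insert, Finset.mem_singleton] at hx hy hz
  -- membership is determined by the part
  have key : ∀ w, (w = a ∨ w = b ∨ w = c) → (π w = π a → w = a) ∧ (π w = π b → w = b) ∧
      (π w = π c → w = c) := by
    rintro w (rfl | rfl | rfl)
    · refine ⟨fun _ => rfl, fun h => ?_, fun h => ?_⟩
      · rw [hab] at h; exact absurd h.symm (ne1 _)
      · rw [hbc, hab] at h; exact absurd h.symm (ne2 _)
    · refine ⟨fun h => ?_, fun _ => rfl, fun h => ?_⟩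
      · rw [hab] at h; exact absurd h (ne1 _)
      · rw [hbc] at h; exact absurd h.symm (ne1 _)
    · refine ⟨fun h => ?_, fun h => ?_, fun _ => rfl⟩
      · rw [hbc, hab] at h; exact absurd h (ne2 _)
      · rw [hbc] at h; exact absurd h (ne1 _)
  rcases hx with rfl | rfl | rfl
  · have h1 := (key y hy).2.1 (by rw [hxy, hab])
    have h2 := (key z hz).2.2 (by rw [hyz, hxy, hbc, hab])
    rw [h1, h2]
  · have h1 := (key y hy).2.2 (by rw [hxy, hbc])
    have h2 := (key z hz).1 (by rw [hyz, hxy, hab, e3])
    rw [h1, h2, ← hrot]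
  · have h1 := (key y hy).1 (by rw [hxy, hbc, hab, e3])
    have h2 := (key z hz).2.1 (by rw [hyz, hxy, hbc, hab, e3])
    rw [h1, h2, hrot]

end

/-- the fractional theorem for every `c < 1/4` -/
theorem fracB_of_lt (c : ℝ) (hc : c < 1 / 4) : FracB c (9 / (1 - 4 * c)) := by
  classical
  refine ⟨1, ?_⟩
  intro V _ _ π G N hN0 hEq hTri hBal hdeg
  have hN : (0 : ℝ) < N := by exact_mod_cast hN0
  obtain ⟨η, hη⟩ : ∃ η : ℝ, η = (1 - 4 * c) / 3 := ⟨_, rfl⟩
  have hη0 : 0 < η := by rw [hη]; linarith
  have hout : ∀ v, ((univ.filter fun y => OE π G v y).card : ℝ)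
      = (dg G v (pt π univ (π v + 1)) : ℝ) := fun v => by rw [card_OE_out]
  have hin : ∀ v, ((univ.filter fun z => OE π G z v).card : ℝ)
      = (dg G v (pt π univ (π v - 1)) : ℝ) := fun v => by rw [card_OE_in]
  have hbal : ∀ v, ((univ.filter fun y => OE π G v y).card : ℝ)
      = (univ.filter fun z => OE π G z v).card := by
    intro v
    have h1 := hBal v
    unfold imb at h1
    have h2 : (dg G v (pt π univ (π v + 1)) : ℤ) = (dg G v (pt π univ (π v - 1)) : ℤ) := by
      linarith
    rw [hout, hin]
    exact_mod_cast h2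
  have hmin : ∀ v, (1 - c) * N ≤ ((univ.filter fun y => OE π G v y).card : ℝ) := by
    intro v
    rw [hout]
    refine hdeg v _ ?_
    have ne1 : ∀ t : ZMod 3, t + 1 ≠ t := by decide
    exact ne1 _
  obtain ⟨g, hg0, hgle, hgrot, hgsupp, hgsum⟩ := FTri.exists_weights (OE π G) (N := N) (η := η)
    (e := (1 - c) * N) hN hη0 hbal hmin
    (by
      apply le_of_eq
      rw [hη]; ring)
    (by
      intro x y hxy
      have hy : π y = π x + 1 := hxy.2
      -- both neighbourhoods lie in the third part
      obtain ⟨P, hP⟩ : ∃ P : Finset V, P = pt π univ (π y + 1) := ⟨_, rfl⟩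
      have hPc : P.card = N := by rw [hP]; exact hEq _
      have hA : (univ.filter fun w => OE π G y w) ⊆ P := by
        intro w hw
        rw [hP]; unfold pt
        exact Finset.mem_filter.2 ⟨Finset.mem_univ _, (Finset.mem_filter.1 hw).2.2⟩
      have hB : (univ.filter fun z => OE π G z x) ⊆ P := by
        intro z hz
        have hz' := (Finset.mem_filter.1 hz).2.2
        rw [hP]; unfold pt
        refine Finset.mem_filter.2 ⟨Finset.mem_univ _, ?_⟩
        rw [hy, hz']
        have e3 : ∀ t : ZMod 3, t + 1 + 1 + 1 = t := by decide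
        exact (e3 _).symm
      have hinter : (univ.filter fun z => OE π G y z ∧ OE π G z x)
          = (univ.filter fun w => OE π G y w) ∩ (univ.filter fun z => OE π G z x) := by
        ext z; simp [Finset.mem_filter, Finset.mem_inter]
      have h1 : ((univ.filter fun w => OE π G y w) ∪ (univ.filter fun z => OE π G z x)).card ≤ N := by
        rw [← hPc]; exact Finset.card_le_card (Finset.union_subset hA hB)
      have h2 := Finset.card_union_add_card_inter (univ.filter fun w => OE π G y w)
        (univ.filter fun z => OE π G z x)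
      have h3 : ((univ.filter fun w => OE π G y w).card : ℝ) + (univ.filter fun z => OE π G z x).card
          ≤ N + ((univ.filter fun w => OE π G y w) ∩ (univ.filter fun z => OE π G z x)).card := by
        have : (univ.filter fun w => OE π G y w).card + (univ.filter fun z => OE π G z x).card
          ≤ N + ((univ.filter fun w => OE π G y w) ∩ (univ.filter fun z => OE π G z x)).card := by
          omega
        exact_mod_cast this
      rw [hbal x, hinter]
      linarith)
  -- the weight function on sets
  obtain ⟨W, hW⟩ : ∃ W : Finset V → ℝ, ∀ t, W t =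
      if h : ∃ p : V × V × V, t = {p.1, p.2.1, p.2.2} ∧ g p.1 p.2.1 p.2.2 ≠ 0 then
        g h.choose.1 h.choose.2.1 h.choose.2.2 else 0 := ⟨_, fun _ => rfl⟩
  have hWg : ∀ x y z, OE π G x y → OE π G y z → OE π G z x → W {x, y, z} = g x y z := by
    intro x y z hxy hyz hzx
    rw [hW]
    split_ifs with h
    · obtain ⟨h1, h2⟩ := h.choose_spec
      obtain ⟨s1, s2, s3⟩ := hgsupp _ _ _ h2
      exact (OE_rot_eq hgrot s1.2 s2.2 hxy.2 hyz.2 h1).symm
    · by_contra hne
      exact h ⟨(x, y, z), rfl, fun h0 => hne h0.symm⟩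
  have hC : 3 / (η * N) = 9 / (1 - 4 * c) / N := by
    have : (1 - 4 * c) ≠ 0 := by linarith
    rw [hη]
    field_simp
    ring
  have hmain : ∀ x y, OE π G x y → ∑ z ∈ cn G x y, W {x, y, z} = 1 := by
    intro x y hxy
    rw [← hgsum x y hxy]
    have h1 : ∀ z ∈ cn G x y, W {x, y, z} = g x y z := by
      intro z hz
      unfold cn nb at hz
      simp only [Finset.mem_inter, Finset.mem_filter, Finset.mem_univ, true_and] at hz
      obtain ⟨h1, h2⟩ := z3_third (π x) (π y) (π z) hxy.2 (hTri x z hz.1) (hTri y z hz.2)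
      exact hWg x y z hxy ⟨hz.2, h1⟩ ⟨hz.1.symm, h2⟩
    rw [Finset.sum_congr rfl h1]
    refine Finset.sum_subset (Finset.subset_univ _) ?_
    intro z _ hz
    by_contra hne
    obtain ⟨-, s2, s3⟩ := hgsupp _ _ _ hne
    apply hz
    unfold cn nb
    simp only [Finset.mem_inter, Finset.mem_filter, Finset.mem_univ, true_and]
    exact ⟨s3.1.symm, s2.1⟩
  refine ⟨W, fun t => ?_, fun t => ?_, fun x y hxy => ?_⟩
  · rw [hW]
    split_ifs
    · exact hg0 _ _ _
    · exact le_rfl
  · rw [← hC, hW]
    split_ifs
    · exact hgle _ _ _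
    · positivity
  · rcases z3_next_or_prev (π x) (π y) (hTri x y hxy) with h | h
    · exact hmain x y ⟨hxy, h⟩
    · have h1 := hmain y x ⟨hxy.symm, h⟩
      have h2 : cn G x y = cn G y x := by unfold cn; exact Finset.inter_comm _ _
      rw [h2, ← h1]
      refine Finset.sum_congr rfl fun z _ => ?_
      rw [Finset.insert_comm]

end DH
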