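import Pool.Agent.Lib.MP_fe8cb7_co.h48.Exact
import Pool.Agent.Lib.MP_fe8cb7_co.h48.Fin
import Pool.Agent.Lib.MP_fe8cb7_co.h25.StM
import Pool.Agent.Lib.MP_fe8cb7_co.h25.Basic
import Pool.Agent.Lib.MP_fe8cb7_co.h2.Upper

/-!
# Every `1/4`-dense precolouring of `K_{n,n}` has a fractional extension, and `1/4` is sharp
-/

open Finset

namespace DH

/-- fractional triangle decomposition of a balanced tripartite graph, minimum degree `3 N / 4` -/
theorem exists_g_exact {V : Type} [Fintype V] [DecidableEq V] (π : V → ZMod 3)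
    (G : SimpleGraph V) (N : ℕ) (hEq : Eq3 π univ N) (hBal : Bal π G univ)
    (hdeg : ∀ v : V, ∀ i : ZMod 3, i ≠ π v → (3 / 4 : ℝ) * N ≤ dg G v (pt π univ i)) :
    ∃ g : V → V → V → ℝ, (∀ x y z, 0 ≤ g x y z) ∧ (∀ x y z, g x y z = g y z x) ∧
      (∀ x y z, g x y z ≠ 0 → OE π G x y ∧ OE π G y z ∧ OE π G z x) ∧
      ∀ x y, OE π G x y → ∑ z, g x y z = 1 := by
  classical
  have hout : ∀ v, ((univ.filter fun y => OE π G v y).card : ℝ)
      = (dg G v (pt π univ (π v + 1)) : ℝ) := fun v => by rw [card_OE_out]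
  have hin : ∀ v, ((univ.filter fun z => OE π G z v).card : ℝ)
      = (dg G v (pt π univ (π v - 1)) : ℝ) := fun v => by rw [card_OE_in]
  have hbal : ∀ v, ((univ.filter fun y => OE π G v y).card : ℝ)
      = (univ.filter fun z => OE π G z v).card := by
    intro v
    have h1 := hBal v
    unfold imb at h1
    have h2 : (dg G v (pt π univ (π v + 1)) : ℤ) = (dg G v (pt π univ (π v - 1)) : ℤ) := by
      linarith
    rw [hout, hin]
    exact_mod_cast h2
  have hmin : ∀ v, (3 / 4 : ℝ) * N ≤ ((univ.filter fun y => OE π G v y).card : ℝ) := by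
    intro v
    rw [hout]
    refine hdeg v _ ?_
    have ne1 : ∀ t : ZMod 3, t + 1 ≠ t := by decide
    exact ne1 _
  refine FTri.exists_weights_exact (OE π G) (N := N) (e := (3 / 4 : ℝ) * N) hbal hmin
    (by apply le_of_eq; ring)
    (by
      intro x y hxy
      have hy : π y = π x + 1 := hxy.2
      -- both neighbourhoods lie in the third part
      obtain ⟨P, hP⟩ : ∃ P : Finset V, P = pt π univ (π y + 1) := ⟨_, rfl⟩
      have hPc : P.card = N := by rw [hP]; exact hEq _
      have hA : (univ.filter fun w => OE π G y w) ⊆ P := by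
        intro w hw
        rw [hP]; unfold pt
        exact Finset.mem_filter.2 ⟨Finset.mem_univ _, (Finset.mem_filter.1 hw).2.2⟩
      have hB : (univ.filter fun z => OE π G z x) ⊆ P := by
        intro z hz
        have hz' := (Finset.mem_filter.1 hz).2.2
        rw [hP]; unfold pt
        refine Finset.mem_filter.2 ⟨Finset.mem_univ _, ?_⟩
        rw [hy, hz']
        have e3 : ∀ t : ZMod 3, t + 1 + 1 + 1 = t := by decide
        exact (e3 _).symm
      have hinter : (univ.filter fun z => OE π G y z ∧ OE π G z x)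
          = (univ.filter fun w => OE π G y w) ∩ (univ.filter fun z => OE π G z x) := by
        ext z; simp [Finset.mem_filter, Finset.mem_inter]
      have h1 : ((univ.filter fun w => OE π G y w) ∪ (univ.filter fun z => OE π G z x)).card ≤ N := by
        rw [← hPc]; exact Finset.card_le_card (Finset.union_subset hA hB)
      have h2 := Finset.card_union_add_card_inter (univ.filter fun w => OE π G y w)
        (univ.filter fun z => OE π G z x)
      have h3 : ((univ.filter fun w => OE π G y w).card : ℝ) + (univ.filter fun z => OE π G z x).card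
          ≤ N + ((univ.filter fun w => OE π G y w) ∩ (univ.filter fun z => OE π G z x)).card := by
        have : (univ.filter fun w => OE π G y w).card + (univ.filter fun z => OE π G z x).card
          ≤ N + ((univ.filter fun w => OE π G y w) ∩ (univ.filter fun z => OE π G z x)).card := by
          omega
        exact_mod_cast this
      rw [hbal x, hinter]
      linarith)

/-- the filled cells as triples (row, column, symbol) -/
private def FQ_P {n : ℕ} (f : Fin n → Fin n → Option (Fin n)) : Finset (ZMod 3 → Fin n) :=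
  univ.filter (fun p => f (p 0) (p 1) = some (p 2))

private theorem FQ_mem_P {n : ℕ} {f : Fin n → Fin n → Option (Fin n)} {p : ZMod 3 → Fin n} :
    p ∈ FQ_P f ↔ f (p 0) (p 1) = some (p 2) := by
  simp [FQ_P]

private theorem FQ_cases (a : ZMod 3) : a = 0 ∨ a = 1 ∨ a = 2 := by
  revert a; decide

private theorem FQ_ext {n : ℕ} {p q : ZMod 3 → Fin n} (h0 : p 0 = q 0) (h1 : p 1 = q 1)
    (h2 : p 2 = q 2) : p = q := by
  funext a
  rcases FQ_cases a with rfl | rfl | rfl
  · exact h0
  · exact h1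
  · exact h2

private theorem FQ_P_inj {n : ℕ} {f : Fin n → Fin n → Option (Fin n)} (hf : ProperPre f)
    {p q : ZMod 3 → Fin n} (hp : p ∈ FQ_P f) (hq : q ∈ FQ_P f) {a b : ZMod 3} (hab : a ≠ b)
    (ha : p a = q a) (hb : p b = q b) : p = q := by
  rw [FQ_mem_P] at hp hq
  have h01 : p 0 = q 0 → p 1 = q 1 → p = q := by
    intro h0 h1
    refine FQ_ext h0 h1 ?_
    rw [h0, h1, hq] at hp
    exact (Option.some.inj hp).symm
  have h02 : p 0 = q 0 → p 2 = q 2 → p = q := by
    intro h0 h2
    rw [h0, h2] at hp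
    exact FQ_ext h0 (hf.1 _ _ _ _ hp hq) h2
  have h12 : p 1 = q 1 → p 2 = q 2 → p = q := by
    intro h1 h2
    rw [h1, h2] at hp
    exact FQ_ext (hf.2 _ _ _ _ hp hq) h1 h2
  rcases FQ_cases a with rfl | rfl | rfl <;> rcases FQ_cases b with rfl | rfl | rfl
  · exact absurd rfl hab
  · exact h01 ha hb
  · exact h02 ha hb
  · exact h01 hb ha
  · exact absurd rfl hab
  · exact h12 ha hb
  · exact h02 hb ha
  · exact h12 hb ha
  · exact absurd rfl hab

/-- the graph of the empty cells -/
private def FQ_G {n : ℕ} (f : Fin n → Fin n → Option (Fin n)) : SimpleGraph (ZMod 3 × Fin n) where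
  Adj u v := u.1 ≠ v.1 ∧ ∀ p ∈ FQ_P f, ¬ (p u.1 = u.2 ∧ p v.1 = v.2)
  symm := ⟨fun _ _ h => ⟨h.1.symm, fun p hp h' => h.2 p hp ⟨h'.2, h'.1⟩⟩⟩
  loopless := ⟨fun _ h => h.1 rfl⟩

private theorem FQ_dg {n : ℕ} {f : Fin n → Fin n → Option (Fin n)} (hf : ProperPre f)
    (a b : ZMod 3) (x : Fin n) (hab : b ≠ a) :
    dg (FQ_G f) (a, x) (pt Prod.fst univ b) + ((FQ_P f).filter (fun p => p a = x)).card = n := by
  classical
  set S := (FQ_P f).filter (fun p => p a = x) with hS
  have h1 : (S.image (fun p => p b)).card = S.card := by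
    apply card_image_of_injOn
    intro p hp q hq hpq
    rw [mem_coe, hS, mem_filter] at hp hq
    exact FQ_P_inj hf hp.1 hq.1 hab.symm (hp.2.trans hq.2.symm) hpq
  have h2 : dg (FQ_G f) (a, x) (pt Prod.fst univ b)
      = ((univ : Finset (Fin n)) \ S.image (fun p => p b)).card := by
    rw [dg]
    symm
    refine card_bij (fun y _ => (b, y)) ?_ ?_ ?_
    · intro y hy
      rw [mem_sdiff] at hy
      refine mem_nb.2 ⟨mem_pt.2 ⟨mem_univ _, rfl⟩, hab.symm, fun p hp h => hy.2 ?_⟩
      exact mem_image.2 ⟨p, mem_filter.2 ⟨hp, h.1⟩, h.2⟩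
    · intro y _ z _ h
      exact (Prod.mk.inj h).2
    · rintro ⟨c, y⟩ hy
      rw [mem_nb, mem_pt] at hy
      obtain ⟨⟨_, h3⟩, h4⟩ := hy
      have h3 : c = b := h3
      subst h3
      refine ⟨y, ?_, rfl⟩
      rw [mem_sdiff]
      refine ⟨mem_univ _, fun h => ?_⟩
      obtain ⟨p, hp, hpy⟩ := mem_image.1 h
      rw [hS, mem_filter] at hp
      exact h4.2 p hp.1 ⟨hp.2, hpy⟩
  rw [h2, ← h1, card_sdiff_add_card_eq_card (subset_univ _)]
  simp

private theorem FQ_dense {n : ℕ} {α : ℝ} {f : Fin n → Fin n → Option (Fin n)}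
    (hd : DensePre α f) (a : ZMod 3) (x : Fin n) :
    (((FQ_P f).filter (fun p => p a = x)).card : ℝ) ≤ α * n := by
  classical
  rcases FQ_cases a with rfl | rfl | rfl
  · refine le_trans ?_ (hd.2.1 x)
    rw [Nat.cast_le]
    refine card_le_card_of_injOn (fun p => p 1) ?_ ?_
    · intro p hp
      rw [mem_coe, mem_filter, FQ_mem_P] at hp
      rw [mem_coe, mem_filter]
      refine ⟨mem_univ _, ?_⟩
      rw [← hp.2, hp.1]
      simp
    · intro p hp q hq hpq
      rw [mem_coe, mem_filter, FQ_mem_P] at hp hq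
      have h0 : p 0 = q 0 := hp.2.trans hq.2.symm
      have h1 : p 1 = q 1 := hpq
      refine FQ_ext h0 h1 ?_
      have := hp.1
      rw [h0, h1, hq.1] at this
      exact (Option.some.inj this).symm
  · refine le_trans ?_ (hd.2.2 x)
    rw [Nat.cast_le]
    refine card_le_card_of_injOn (fun p => p 0) ?_ ?_
    · intro p hp
      rw [mem_coe, mem_filter, FQ_mem_P] at hp
      rw [mem_coe, mem_filter]
      refine ⟨mem_univ _, ?_⟩
      rw [← hp.2, hp.1]
      simp
    · intro p hp q hq hpq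
      rw [mem_coe, mem_filter, FQ_mem_P] at hp hq
      have h1 : p 1 = q 1 := hp.2.trans hq.2.symm
      have h0 : p 0 = q 0 := hpq
      refine FQ_ext h0 h1 ?_
      have := hp.1
      rw [h0, h1, hq.1] at this
      exact (Option.some.inj this).symm
  · refine le_trans ?_ (hd.1 x)
    rw [Nat.cast_le]
    refine card_le_card_of_injOn (fun p => (p 0, p 1)) ?_ ?_
    · intro p hp
      rw [mem_coe, mem_filter, FQ_mem_P] at hp
      rw [mem_coe, mem_filter]
      exact ⟨mem_univ _, by rw [← hp.2]; exact hp.1⟩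
    · intro p hp q hq hpq
      rw [mem_coe, mem_filter, FQ_mem_P] at hp hq
      have h0 : p 0 = q 0 := (Prod.mk.inj hpq).1
      have h1 : p 1 = q 1 := (Prod.mk.inj hpq).2
      exact FQ_ext h0 h1 (hp.2.trans hq.2.symm)

private theorem FQ_eq3 (n : ℕ) :
    Eq3 (Prod.fst : ZMod 3 × Fin n → ZMod 3) (univ : Finset (ZMod 3 × Fin n)) n := by
  classical
  intro i
  have : (pt (Prod.fst : ZMod 3 × Fin n → ZMod 3) univ i)
      = (univ : Finset (Fin n)).map ⟨fun y => (i, y), fun y z h => (Prod.mk.inj h).2⟩ := by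
    ext ⟨a, y⟩
    simp only [mem_pt, mem_univ, true_and, mem_map]
    constructor
    · rintro rfl
      exact ⟨y, rfl⟩
    · rintro ⟨z, hz⟩
      exact (Prod.mk.inj hz).1.symm
  rw [this, card_map, card_univ, Fintype.card_fin]


/-- fractional extension of a precolouring: `w i j s` = the fraction of colour `s` on the edge `i j` -/
def FracExt {n : ℕ} (f : Fin n → Fin n → Option (Fin n)) : Prop :=
  ∃ w : Fin n → Fin n → Fin n → ℝ, (∀ i j s, 0 ≤ w i j s) ∧ (∀ i j, ∑ s, w i j s = 1) ∧
    (∀ i s, ∑ j, w i j s = 1) ∧ (∀ j s, ∑ i, w i j s = 1) ∧ ∀ i j s, f i j = some s → w i j s = 1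

/-- an edge of the graph of empty cells -/
private theorem FQ_OE {n : ℕ} {f : Fin n → Fin n → Option (Fin n)} (a : ZMod 3) (x y : Fin n) :
    OE Prod.fst (FQ_G f) (a, x) (a + 1, y) ↔ ∀ p ∈ FQ_P f, ¬ (p a = x ∧ p (a + 1) = y) := by
  constructor
  · intro h
    exact h.1.2
  · intro h
    refine ⟨⟨?_, h⟩, rfl⟩
    have ne1 : ∀ t : ZMod 3, t ≠ t + 1 := by decide
    exact ne1 a

/-- sum over the third vertex -/
private theorem FQ_sum {n : ℕ} {f : Fin n → Fin n → Option (Fin n)}
    {g : ZMod 3 × Fin n → ZMod 3 × Fin n → ZMod 3 × Fin n → ℝ}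
    (hs : ∀ x y z, g x y z ≠ 0 → OE Prod.fst (FQ_G f) x y ∧ OE Prod.fst (FQ_G f) y z ∧
      OE Prod.fst (FQ_G f) z x) (a : ZMod 3) (x y : Fin n) :
    ∑ z, g (a, x) (a + 1, y) z = ∑ z, g (a, x) (a + 1, y) (a + 1 + 1, z) := by
  rw [Fintype.sum_prod_type]
  rw [Finset.sum_eq_single (a + 1 + 1)]
  · intro b _ hb
    refine Finset.sum_eq_zero fun z _ => ?_
    by_contra hne
    exact hb (hs _ _ _ hne).2.1.2
  · intro h
    exact absurd (Finset.mem_univ _) h

/-- FRACTIONAL EXTENSION at `1/4`, for every `n` -/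
theorem fracExt_quarter {n : ℕ} {f : Fin n → Fin n → Option (Fin n)} (hf : ProperPre f)
    (hd : DensePre (1 / 4) f) : FracExt f := by
  classical
  have hbal : Bal Prod.fst (FQ_G f) univ := by
    rintro ⟨a, x⟩
    unfold imb
    have ne1 : ∀ t : ZMod 3, t + 1 ≠ t := by decide
    have ne2 : ∀ t : ZMod 3, t - 1 ≠ t := by decide
    have h1 := FQ_dg hf a (a + 1) x (ne1 a)
    have h2 := FQ_dg hf a (a - 1) x (ne2 a)
    simp only
    omega
  have hdeg : ∀ v : ZMod 3 × Fin n, ∀ i : ZMod 3, i ≠ v.1 →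
      (3 / 4 : ℝ) * n ≤ dg (FQ_G f) v (pt Prod.fst univ i) := by
    rintro ⟨a, x⟩ i hi
    have h1 := FQ_dg hf a i x hi
    have h2 := FQ_dense hd a x
    have h3 : ((dg (FQ_G f) (a, x) (pt Prod.fst univ i) : ℝ)
        + ((FQ_P f).filter (fun p => p a = x)).card) = n := by exact_mod_cast h1
    linarith
  obtain ⟨g, hg0, hgrot, hgs, hgsum⟩ := exists_g_exact Prod.fst (FQ_G f) n (FQ_eq3 n) hbal hdeg
  have e2 : (1 : ZMod 3) + 1 = 2 := by decide
  have e3 : (2 : ZMod 3) + 1 = 0 := by decide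
  have e1 : (0 : ZMod 3) + 1 = 1 := by decide
  -- supports
  have hz : ∀ i j s, g (0, i) (1, j) (2, s) ≠ 0 →
      (∀ p ∈ FQ_P f, ¬ (p 0 = i ∧ p 1 = j)) ∧ (∀ p ∈ FQ_P f, ¬ (p 1 = j ∧ p 2 = s)) ∧
        (∀ p ∈ FQ_P f, ¬ (p 2 = s ∧ p 0 = i)) := by
    intro i j s hne
    obtain ⟨a1, a2, a3⟩ := hgs _ _ _ hne
    exact ⟨a1.1.2, a2.1.2, a3.1.2⟩
  -- the triple of a filled cell
  have n10 : (1 : ZMod 3) ≠ 0 := by decide
  have n20 : (2 : ZMod 3) ≠ 0 := by decide
  have n21 : (2 : ZMod 3) ≠ 1 := by decide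
  have hcell : ∀ i j s, f i j = some s → ∃ p ∈ FQ_P f, p 0 = i ∧ p 1 = j ∧ p 2 = s := by
    intro i j s h
    refine ⟨fun a => if a = 0 then i else if a = 1 then j else s, ?_, ?_, ?_, ?_⟩
    · rw [FQ_mem_P]
      simp [n10, n20, n21, h]
    · simp
    · simp [n10]
    · simp [n20, n21]
  refine ⟨fun i j s => if f i j = some s then 1 else g (0, i) (1, j) (2, s), ?_, ?_, ?_, ?_, ?_⟩
  · intro i j s
    simp only
    split_ifs
    · norm_num
    · exact hg0 _ _ _
  · -- cells
    intro i j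
    by_cases h : ∃ s0, f i j = some s0
    · obtain ⟨s0, hs0⟩ := h
      rw [Finset.sum_eq_single s0]
      · simp [hs0]
      · intro s _ hne
        show (if f i j = some s then (1 : ℝ) else g (0, i) (1, j) (2, s)) = 0
        rw [if_neg]
        · by_contra hg
          obtain ⟨p, hp, p0, p1, p2⟩ := hcell i j s0 hs0
          exact (hz i j s hg).1 p hp ⟨p0, p1⟩
        · rw [hs0]; intro h'; exact hne (Option.some.inj h').symm
      · intro h; exact absurd (Finset.mem_univ _) h
    · push Not at h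
      have h1 : ∀ s, (if f i j = some s then (1 : ℝ) else g (0, i) (1, j) (2, s))
          = g (0, i) (0 + 1, j) (0 + 1 + 1, s) := fun s => if_neg (h s)
      rw [Finset.sum_congr rfl fun s _ => h1 s, ← FQ_sum hgs]
      apply hgsum
      rw [FQ_OE]
      rintro p hp ⟨q1, q2⟩
      rw [FQ_mem_P] at hp
      rw [q1, show p 1 = j from q2] at hp
      exact h _ hp
  · -- rows and symbols
    intro i s
    by_cases h : ∃ j0, f i j0 = some s
    · obtain ⟨j0, hj0⟩ := h
      rw [Finset.sum_eq_single j0]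
      · simp [hj0]
      · intro j _ hne
        show (if f i j = some s then (1 : ℝ) else g (0, i) (1, j) (2, s)) = 0
        rw [if_neg]
        · by_contra hg
          obtain ⟨p, hp, p0, p1, p2⟩ := hcell i j0 s hj0
          exact (hz i j s hg).2.2 p hp ⟨p2, p0⟩
        · intro h'; exact hne (hf.1 _ _ _ _ h' hj0)
      · intro h; exact absurd (Finset.mem_univ _) h
    · push Not at h
      have h1 : ∀ j, (if f i j = some s then (1 : ℝ) else g (0, i) (1, j) (2, s))
          = g (2, s) (2 + 1, i) (2 + 1 + 1, j) := fun j => by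
        rw [if_neg (h j), ← hgrot (2, s) (0, i) (1, j)]
        rfl
      rw [Finset.sum_congr rfl fun j _ => h1 j, ← FQ_sum hgs]
      apply hgsum
      rw [FQ_OE]
      rintro p hp ⟨q1, q2⟩
      rw [FQ_mem_P] at hp
      rw [q1, show p 0 = i from q2] at hp
      exact h _ hp
  · -- columns and symbols
    intro j s
    by_cases h : ∃ i0, f i0 j = some s
    · obtain ⟨i0, hi0⟩ := h
      rw [Finset.sum_eq_single i0]
      · simp [hi0]
      · intro i _ hne
        show (if f i j = some s then (1 : ℝ) else g (0, i) (1, j) (2, s)) = 0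
        rw [if_neg]
        · by_contra hg
          obtain ⟨p, hp, p0, p1, p2⟩ := hcell i0 j s hi0
          exact (hz i j s hg).2.1 p hp ⟨p1, p2⟩
        · intro h'; exact hne (hf.2 _ _ _ _ h' hi0)
      · intro h; exact absurd (Finset.mem_univ _) h
    · push Not at h
      have h1 : ∀ i, (if f i j = some s then (1 : ℝ) else g (0, i) (1, j) (2, s))
          = g (1, j) (1 + 1, s) (1 + 1 + 1, i) := fun i => by
        rw [if_neg (h i), hgrot (0, i) (1, j) (2, s)]
        rfl
      rw [Finset.sum_congr rfl fun i _ => h1 i, ← FQ_sum hgs]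
      apply hgsum
      rw [FQ_OE]
      rintro p hp ⟨q1, q2⟩
      rw [FQ_mem_P] at hp
      rw [q1, show p 2 = s from q2] at hp
      exact h _ hp
  · intro i j s h
    simp [h]

end DH
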