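import Pool.Agent.Lib.MP_fe8cb7_co.h48.FracPLS

/-!
# `1/4` is sharp for fractional extensions
-/

open Finset

namespace DH

namespace Up

/-- real sign of a class -/
def sgr (b : Bool) : ℝ := if b then 1 else -1

lemma sum_sgr {n h : ℕ} [NeZero h] (e : Fin n ≃ Bool × ZMod h) :
    ∑ i : Fin n, sgr (e i).1 = 0 := by
  rw [Equiv.sum_comp e (fun x : Bool × ZMod h => sgr x.1), Fintype.sum_prod_type]
  simp [sgr]

open Classical in
/-- fractional version of `count_same` -/
lemma frac_count {n h : ℕ} [NeZero h] (e : Fin n ≃ Bool × ZMod h) (w : Fin n → Fin n → Fin n → ℝ)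
    (h1 : ∀ i j, ∑ s, w i j s = 1) (h2 : ∀ i s, ∑ j, w i j s = 1) (h3 : ∀ j s, ∑ i, w i j s = 1) :
    4 * ∑ i, ∑ j, ∑ s, (if (e i).1 = (e j).1 ∧ (e i).1 = (e s).1 then w i j s else 0)
      = (n : ℝ) ^ 2 := by
  have key : ∀ a b c : Bool, ∀ t : ℝ, 4 * (if a = b ∧ a = c then t else 0) =
      t + sgr a * sgr b * t + sgr b * sgr c * t + sgr a * sgr c * t := by
    intro a b c t
    cases a <;> cases b <;> cases c <;> simp [sgr] <;> ring
  have e0 : ∑ i, ∑ j, ∑ s, w i j s = (n : ℝ) ^ 2 := by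
    simp only [h1]; simp [sq]
  have e1 : ∑ i, ∑ j, ∑ s, sgr (e i).1 * sgr (e j).1 * w i j s = 0 := by
    have : ∀ i j, ∑ s, sgr (e i).1 * sgr (e j).1 * w i j s = sgr (e i).1 * sgr (e j).1 := by
      intro i j; rw [← Finset.mul_sum, h1, mul_one]
    simp only [this, ← Finset.mul_sum, sum_sgr e, mul_zero, Finset.sum_const_zero]
  have e2 : ∑ i, ∑ j, ∑ s, sgr (e j).1 * sgr (e s).1 * w i j s = 0 := by
    rw [Finset.sum_comm]
    have : ∀ j, ∑ i, ∑ s, sgr (e j).1 * sgr (e s).1 * w i j s = 0 := by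
      intro j
      rw [Finset.sum_comm]
      have : ∀ s, ∑ i, sgr (e j).1 * sgr (e s).1 * w i j s = sgr (e j).1 * sgr (e s).1 := by
        intro s; rw [← Finset.mul_sum, h3, mul_one]
      simp only [this, ← Finset.mul_sum, sum_sgr e, mul_zero]
    simp only [this, Finset.sum_const_zero]
  have e3 : ∑ i, ∑ j, ∑ s, sgr (e i).1 * sgr (e s).1 * w i j s = 0 := by
    have : ∀ i, ∑ j, ∑ s, sgr (e i).1 * sgr (e s).1 * w i j s = 0 := by
      intro i
      rw [Finset.sum_comm]
      have : ∀ s, ∑ j, sgr (e i).1 * sgr (e s).1 * w i j s = sgr (e i).1 * sgr (e s).1 := by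
        intro s; rw [← Finset.mul_sum, h2, mul_one]
      simp only [this, ← Finset.mul_sum, sum_sgr e, mul_zero]
    simp only [this, Finset.sum_const_zero]
  rw [Finset.mul_sum]
  have e4 : ∑ i, 4 * ∑ j, ∑ s, (if (e i).1 = (e j).1 ∧ (e i).1 = (e s).1 then w i j s else 0)
      = ∑ i, ∑ j, ∑ s, (w i j s + sgr (e i).1 * sgr (e j).1 * w i j s
        + sgr (e j).1 * sgr (e s).1 * w i j s + sgr (e i).1 * sgr (e s).1 * w i j s) := by
    refine Finset.sum_congr rfl fun i _ => ?_
    rw [Finset.mul_sum]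
    refine Finset.sum_congr rfl fun j _ => ?_
    rw [Finset.mul_sum]
    refine Finset.sum_congr rfl fun s _ => ?_
    exact key _ _ _ _
  rw [e4]
  simp only [Finset.sum_add_distrib]
  rw [e0, e1, e2, e3]
  ring

end Up

/-- no fractional extension for `α > 1/4` -/
theorem not_fracExt (α : ℝ) (hα : 1 / 4 < α) (n0 : ℕ) :
    ∃ n : ℕ, n0 ≤ n ∧ ∃ f : Fin n → Fin n → Option (Fin n), ProperPre f ∧ DensePre α f ∧
      ¬ FracExt f := by
  classical
  obtain ⟨t, ht⟩ := exists_nat_ge (max (n0 : ℝ) (1 / (4 * α - 1)))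
  have ht1 : (n0 : ℝ) ≤ t := le_trans (le_max_left _ _) ht
  have ht2 : 1 / (4 * α - 1) ≤ t := le_trans (le_max_right _ _) ht
  set h : ℕ := 2 * t + 1 with hh
  set n : ℕ := 2 * h with hn
  have : NeZero h := ⟨by omega⟩
  have hn0n : n0 ≤ n := by
    have : n0 ≤ t := by exact_mod_cast ht1
    omega
  have hcard : Fintype.card (Fin n) = Fintype.card (Bool × ZMod h) := by
    rw [Fintype.card_fin, Fintype.card_prod, Fintype.card_bool, ZMod.card]
  let e : Fin n ≃ Bool × ZMod h := Fintype.equivOfCardEq hcard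
  have hu : IsUnit (2 : ZMod h) := by
    have : IsUnit ((2 : ℕ) : ZMod h) := by
      rw [ZMod.isUnit_iff_coprime]
      rw [hh]
      rw [Nat.coprime_two_left]
      exact ⟨t, rfl⟩
    simpa using this
  obtain ⟨K, hK⟩ : ∃ K : Finset (ZMod h), K.card = t + 1 := by
    obtain ⟨K, _, hK⟩ := Finset.exists_subset_card_eq (s := (univ : Finset (ZMod h))) (n := t + 1)
      (by rw [Finset.card_univ, ZMod.card]; omega)
    exact ⟨K, hK⟩
  have hpos : 0 < 4 * α - 1 := by linarith
  have hd : ((t + 1 : ℕ) : ℝ) ≤ α * (n : ℝ) := by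
    have h1 : 1 ≤ (4 * α - 1) * t := by
      rw [div_le_iff₀ hpos] at ht2
      linarith
    have h2 : (n : ℝ) = 2 * (2 * t + 1) := by rw [hn, hh]; push_cast; ring
    rw [h2]; push_cast
    nlinarith
  have hdense : DensePre α (Up.pre e K) := by
    refine ⟨?_, ?_, ?_⟩
    · intro s
      refine le_trans ?_ hd
      exact_mod_cast (hK ▸ Up.card_sym e K s)
    · intro i
      refine le_trans ?_ hd
      exact_mod_cast (hK ▸ (Up.card_row hu e K i).le)
    · intro j
      refine le_trans ?_ hd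
      exact_mod_cast (hK ▸ Up.card_col e K j)
  refine ⟨n, hn0n, Up.pre e K, Up.pre_proper e K, hdense, ?_⟩
  rintro ⟨w, w0, w1, w2, w3, w4⟩
  have c1 := Up.frac_count e w w1 w2 w3
  -- the filled cells
  have c2 : (n : ℝ) * (t + 1) ≤
      ∑ i, ∑ j, ∑ s, (if (e i).1 = (e j).1 ∧ (e i).1 = (e s).1 then w i j s else 0) := by
    have c3 : ∀ i : Fin n, ((t + 1 : ℕ) : ℝ) ≤
        ∑ j, ∑ s, (if (e i).1 = (e j).1 ∧ (e i).1 = (e s).1 then w i j s else 0) := by
      intro i
      rw [← hK, ← Up.card_row hu e K i, Finset.card_filter]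
      push_cast
      refine Finset.sum_le_sum fun j _ => ?_
      split_ifs with hj
      · obtain ⟨s, hs⟩ := Option.ne_none_iff_exists'.mp hj
        have hs' := (Up.pre_some e K i j s).1 hs
        have hw := w4 i j s hs
        calc (1 : ℝ) = (if (e i).1 = (e j).1 ∧ (e i).1 = (e s).1 then w i j s else 0) := by
              rw [if_pos, hw]
              exact ⟨hs'.1, by rw [hs'.2.2]⟩
          _ ≤ ∑ s, (if (e i).1 = (e j).1 ∧ (e i).1 = (e s).1 then w i j s else 0) := by
              refine Finset.single_le_sum (f := fun s =>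
                (if (e i).1 = (e j).1 ∧ (e i).1 = (e s).1 then w i j s else 0)) ?_
                (Finset.mem_univ s)
              intro s _
              split_ifs
              · exact w0 _ _ _
              · exact le_rfl
      · refine Finset.sum_nonneg fun s _ => ?_
        split_ifs
        · exact w0 _ _ _
        · exact le_rfl
    calc (n : ℝ) * (t + 1) = ∑ i : Fin n, ((t + 1 : ℕ) : ℝ) := by
          rw [Finset.sum_const, Finset.card_univ, Fintype.card_fin, nsmul_eq_mul]; push_cast; ring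
      _ ≤ _ := Finset.sum_le_sum fun i _ => c3 i
  have c4 : (n : ℝ) = 2 * (2 * t + 1) := by rw [hn, hh]; push_cast; ring
  rw [c4] at c1 c2
  have c5 : (0 : ℝ) ≤ t := Nat.cast_nonneg t
  nlinarith

end DH
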