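import Mathlib

/-!
# The real inequality behind the fractional triangle decomposition theorem (proof of helper75)

`φ a b c = (3/4) (a² + b²) / (a³ + b³ + c³)`; the lemma says `a φ(a,b,c) + c φ(c,b',a) ≤ 1`.
-/

namespace FTri

/-- the weight of a link per unit of its edge -/
noncomputable def phi (a b c : ℝ) : ℝ := 3 / 4 * (a ^ 2 + b ^ 2) / (a ^ 3 + b ^ 3 + c ^ 3)

lemma phi_nonneg {a b c : ℝ} (ha : 0 ≤ a) (hb : 0 ≤ b) (hc : 0 ≤ c) : 0 ≤ phi a b c := by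
  unfold phi; positivity

lemma key {a b P h : ℝ} (ha : 0 ≤ a) (hb : 0 ≤ b) (hh : 0 ≤ h)
    (heq : 2 * h * (P + b ^ 3) = 3 * (a ^ 3 + a * b ^ 2)) :
    2 * h ^ 3 * P ≤ (3 * h ^ 2 + 1) * a ^ 3 := by
  have h1 : 0 ≤ (a - h * b) ^ 2 * (a + 2 * (h * b)) := by positivity
  have h2 : 2 * h ^ 3 * (P + b ^ 3) = 3 * h ^ 2 * (a ^ 3 + a * b ^ 2) := by
    calc 2 * h ^ 3 * (P + b ^ 3) = h ^ 2 * (2 * h * (P + b ^ 3)) := by ring
      _ = h ^ 2 * (3 * (a ^ 3 + a * b ^ 2)) := by rw [heq]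
      _ = _ := by ring
  nlinarith [h1, h2]

lemma two_bound {A C h h' : ℝ} (hA : 0 ≤ A) (hC : 0 ≤ C) (hP : 0 < A + C) (hh : 0 ≤ h)
    (hh' : 0 ≤ h') (h1 : 2 * h ^ 3 * (A + C) ≤ (3 * h ^ 2 + 1) * A)
    (h2 : 2 * h' ^ 3 * (A + C) ≤ (3 * h' ^ 2 + 1) * C) : h + h' ≤ 2 := by
  by_contra hcon
  push Not at hcon
  have e1 := mul_le_mul_of_nonneg_right h1 (by positivity : (0 : ℝ) ≤ 3 * h' ^ 2 + 1)
  have e2 := mul_le_mul_of_nonneg_right h2 (by positivity : (0 : ℝ) ≤ 3 * h ^ 2 + 1)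
  have e3 : (A + C) * (2 * h ^ 3 * (3 * h' ^ 2 + 1) + 2 * h' ^ 3 * (3 * h ^ 2 + 1)
      - (3 * h ^ 2 + 1) * (3 * h' ^ 2 + 1)) ≤ 0 := by nlinarith [e1, e2]
  have e4 : 2 * h ^ 3 * (3 * h' ^ 2 + 1) + 2 * h' ^ 3 * (3 * h ^ 2 + 1)
      - (3 * h ^ 2 + 1) * (3 * h' ^ 2 + 1) ≤ 0 := by
    by_contra h5
    push Not at h5
    have := mul_pos hP h5
    linarith
  obtain ⟨d, hd⟩ : ∃ d, d = h + h' - 2 := ⟨_, rfl⟩
  obtain ⟨p, hp⟩ : ∃ p, p = h * h' := ⟨_, rfl⟩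
  have hd0 : 0 < d := by rw [hd]; linarith
  have e5 : 2 * h ^ 3 * (3 * h' ^ 2 + 1) + 2 * h' ^ 3 * (3 * h ^ 2 + 1)
      - (3 * h ^ 2 + 1) * (3 * h' ^ 2 + 1)
      = 3 * (p - 1) ^ 2 + d * (6 * p ^ 2 - 6 * p + 12) + 9 * d ^ 2 + 2 * d ^ 3 := by
    rw [hd, hp]; ring
  rw [e5] at e4
  have e6 : 0 ≤ 6 * p ^ 2 - 6 * p + 12 := by nlinarith [sq_nonneg (p - 1 / 2)]
  have e7 := mul_nonneg hd0.le e6
  have e8 : 0 < d ^ 2 := by positivity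
  have e9 : 0 < d ^ 3 := by positivity
  nlinarith [sq_nonneg (p - 1)]

/-- helper75's lemma -/
theorem phi_add_le {a b b' c : ℝ} (ha : 0 ≤ a) (hb : 0 ≤ b) (hb' : 0 ≤ b') (hc : 0 ≤ c) :
    a * phi a b c + c * phi c b' a ≤ 1 := by
  have ha3 : 0 ≤ a ^ 3 := by positivity
  have hc3 : 0 ≤ c ^ 3 := by positivity
  have hb3 : 0 ≤ b ^ 3 := by positivity
  have hb3' : 0 ≤ b' ^ 3 := by positivity
  rcases (add_nonneg ha3 hc3).eq_or_lt with h0 | hP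
  · have h1 : a ^ 3 = 0 := by linarith
    have h2 : c ^ 3 = 0 := by linarith
    have h3 : a = 0 := by simpa using h1
    have h4 : c = 0 := by simpa using h2
    rw [h3, h4]; norm_num
  · obtain ⟨h, hh⟩ : ∃ h, h = 2 * (a * phi a b c) := ⟨_, rfl⟩
    obtain ⟨h', hh'⟩ : ∃ h', h' = 2 * (c * phi c b' a) := ⟨_, rfl⟩
    have p1 : 0 ≤ h := by rw [hh]; have := phi_nonneg ha hb hc; positivity
    have p2 : 0 ≤ h' := by rw [hh']; have := phi_nonneg hc hb' ha; positivity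
    have d1 : 0 < a ^ 3 + b ^ 3 + c ^ 3 := by linarith
    have d2 : 0 < c ^ 3 + b' ^ 3 + a ^ 3 := by linarith
    have q1 : 2 * h * ((a ^ 3 + c ^ 3) + b ^ 3) = 3 * (a ^ 3 + a * b ^ 2) := by
      rw [hh]; unfold phi
      field_simp
      ring
    have q2 : 2 * h' * ((a ^ 3 + c ^ 3) + b' ^ 3) = 3 * (c ^ 3 + c * b' ^ 2) := by
      rw [hh']; unfold phi
      field_simp
      ring
    have k1 := key ha hb p1 q1
    have k2 := key hc hb' p2 q2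
    have := two_bound ha3 hc3 hP p1 p2 k1 k2
    rw [hh, hh'] at this
    linarith

end FTri
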