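import Mathlib

/-!
# Minimiser of `∑ f k + ∑ u⁴ / 4` over circulations and its first order condition
-/

open Finset Filter Topology

namespace FTri

variable {V : Type*} [Fintype V]

/-- nonnegative circulations on the digraph `E` -/
structure Circ (E : V → V → Prop) (k : V → V → ℝ) : Prop where
  nonneg : ∀ x y, 0 ≤ k x y
  supp : ∀ x y, ¬ E x y → k x y = 0
  bal : ∀ x, ∑ y, k x y = ∑ z, k z x

/-- the functional -/
noncomputable def Fn (f k : V → V → ℝ) : ℝ :=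
  ∑ x, ∑ y, f x y * k x y + ∑ x, (∑ y, k x y) ^ 4 / 4

lemma Fn_zero (f : V → V → ℝ) : Fn f (fun _ _ => 0) = 0 := by
  simp [Fn]

lemma fourth {t u : ℝ} (ht : 2 ≤ t) (hu : 0 ≤ u) : t * u - t ^ 2 ≤ u ^ 4 / 4 := by
  rcases le_total u t with h | h
  · have : t * u ≤ t ^ 2 := by nlinarith
    have h4 : 0 ≤ u ^ 4 / 4 := by positivity
    linarith
  · have h1 : t ^ 3 ≤ u ^ 3 := pow_le_pow_left₀ (by linarith) h 3
    have h2 : 4 * t ≤ t ^ 3 := by nlinarith [mul_nonneg (by linarith : (0:ℝ) ≤ t) (by nlinarith : (0:ℝ) ≤ t ^ 2 - 4)]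
    have h3 : 4 * t * u ≤ u ^ 4 := by
      calc 4 * t * u ≤ u ^ 3 * u := mul_le_mul_of_nonneg_right (by linarith) hu
        _ = u ^ 4 := by ring
    nlinarith [sq_nonneg t]

lemma coercive {E : V → V → Prop} {f k : V → V → ℝ} {t : ℝ} (hk : Circ E k) (ht : 2 ≤ t)
    (hf : ∀ x y, -(t - 2) ≤ f x y) :
    2 * ∑ x, ∑ y, k x y - (Fintype.card V) * t ^ 2 ≤ Fn f k := by
  have h1 : -(t - 2) * ∑ x, ∑ y, k x y ≤ ∑ x, ∑ y, f x y * k x y := by
    rw [Finset.mul_sum]
    refine Finset.sum_le_sum fun x _ => ?_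
    rw [Finset.mul_sum]
    exact Finset.sum_le_sum fun y _ => mul_le_mul_of_nonneg_right (hf x y) (hk.nonneg x y)
  have h2 : t * (∑ x, ∑ y, k x y) - (Fintype.card V) * t ^ 2 ≤ ∑ x, (∑ y, k x y) ^ 4 / 4 := by
    have : ∑ x, (t * (∑ y, k x y) - t ^ 2) ≤ ∑ x, (∑ y, k x y) ^ 4 / 4 :=
      Finset.sum_le_sum fun x _ => fourth ht (Finset.sum_nonneg fun y _ => hk.nonneg x y)
    rw [Finset.sum_sub_distrib, ← Finset.mul_sum, Finset.sum_const, Finset.card_univ,
      nsmul_eq_mul] at this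
    exact this
  unfold Fn
  linarith

lemma le_total_sum {E : V → V → Prop} {k : V → V → ℝ} (hk : Circ E k) (x y : V) :
    k x y ≤ ∑ x, ∑ y, k x y := by
  calc k x y ≤ ∑ y, k x y := Finset.single_le_sum (fun y _ => hk.nonneg x y) (Finset.mem_univ y)
    _ ≤ ∑ x, ∑ y, k x y := Finset.single_le_sum (f := fun x => ∑ y, k x y)
        (fun x _ => Finset.sum_nonneg fun y _ => hk.nonneg x y) (Finset.mem_univ x)

lemma continuous_Fn (f : V → V → ℝ) : Continuous (Fn f) := by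
  unfold Fn
  fun_prop

theorem exists_min (E : V → V → Prop) (f : V → V → ℝ) :
    ∃ k, Circ E k ∧ ∀ k', Circ E k' → Fn f k ≤ Fn f k' := by
  classical
  -- the bound
  obtain ⟨t, ht, hf⟩ : ∃ t : ℝ, 2 ≤ t ∧ ∀ x y, -(t - 2) ≤ f x y := by
    refine ⟨2 + ∑ x, ∑ y, |f x y|, ?_, ?_⟩
    · have : 0 ≤ ∑ x, ∑ y, |f x y| :=
        Finset.sum_nonneg fun x _ => Finset.sum_nonneg fun y _ => abs_nonneg _
      linarith
    · intro x y
      have h1 : |f x y| ≤ ∑ y, |f x y| :=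
        Finset.single_le_sum (f := fun y => |f x y|) (fun y _ => abs_nonneg _) (Finset.mem_univ y)
      have h2 : ∑ y, |f x y| ≤ ∑ x, ∑ y, |f x y| :=
        Finset.single_le_sum (f := fun x => ∑ y, |f x y|)
          (fun x _ => Finset.sum_nonneg fun y _ => abs_nonneg _) (Finset.mem_univ x)
      have h3 := neg_abs_le (f x y)
      linarith
  obtain ⟨R, hR⟩ : ∃ R : ℝ, R = (Fintype.card V) * t ^ 2 := ⟨_, rfl⟩
  have hR0 : 0 ≤ R := by rw [hR]; positivity
  let S : Set (V → V → ℝ) := {k | Circ E k ∧ ∀ x y, k x y ≤ R}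
  have hSc : IsCompact S := by
    have hbox : IsCompact (Set.univ.pi fun _ : V => Set.univ.pi fun _ : V => Set.Icc (0 : ℝ) R) :=
      isCompact_univ_pi fun _ => isCompact_univ_pi fun _ => isCompact_Icc
    refine hbox.of_isClosed_subset ?_ ?_
    · have hS : S = (⋂ x, ⋂ y, {k : V → V → ℝ | 0 ≤ k x y}) ∩
          ((⋂ x, ⋂ y, {k : V → V → ℝ | ¬ E x y → k x y = 0}) ∩
          ((⋂ x, {k : V → V → ℝ | ∑ y, k x y = ∑ z, k z x}) ∩
          (⋂ x, ⋂ y, {k : V → V → ℝ | k x y ≤ R}))) := by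
        ext k
        simp only [S, Set.mem_ofPred_eq, Set.mem_inter_iff, Set.mem_iInter]
        constructor
        · rintro ⟨h, h'⟩
          exact ⟨h.nonneg, h.supp, h.bal, h'⟩
        · rintro ⟨h1, h2, h3, h4⟩
          exact ⟨⟨h1, h2, h3⟩, h4⟩
      rw [hS]
      refine IsClosed.inter ?_ (IsClosed.inter ?_ (IsClosed.inter ?_ ?_))
      · exact isClosed_iInter fun x => isClosed_iInter fun y =>
          isClosed_le continuous_const (by fun_prop)
      · refine isClosed_iInter fun x => isClosed_iInter fun y => ?_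
        by_cases hE : E x y
        · simp [hE]
        · simp only [hE, not_false_eq_true, forall_true_left]
          exact isClosed_eq (by fun_prop) continuous_const
      · exact isClosed_iInter fun x => isClosed_eq (by fun_prop) (by fun_prop)
      · exact isClosed_iInter fun x => isClosed_iInter fun y =>
          isClosed_le (by fun_prop) continuous_const
    · rintro k ⟨hk, hk'⟩
      simp only [Set.mem_pi, Set.mem_univ, forall_true_left]
      exact fun x y => ⟨hk.nonneg x y, hk' x y⟩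
  have h0 : Circ E (fun _ _ => (0 : ℝ)) := ⟨fun _ _ => le_rfl, fun _ _ _ => rfl, fun _ => rfl⟩
  have hSne : S.Nonempty := ⟨fun _ _ => 0, h0, fun _ _ => hR0⟩
  obtain ⟨k, hkS, hkmin⟩ := hSc.exists_isMinOn hSne (continuous_Fn f).continuousOn
  refine ⟨k, hkS.1, fun k' hk' => ?_⟩
  by_cases hS' : k' ∈ S
  · exact hkmin hS'
  · have h1 : ¬ ∀ x y, k' x y ≤ R := fun h => hS' ⟨hk', h⟩
    push Not at h1
    obtain ⟨x, y, hxy⟩ := h1
    have h2 := le_total_sum hk' x y
    have h3 := coercive hk' ht hf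
    have h4 : Fn f k ≤ 0 := by
      have := hkmin (show (fun _ _ => (0 : ℝ)) ∈ S from ⟨h0, fun _ _ => hR0⟩)
      simp only [Set.mem_ofPred_eq] at this
      rwa [Fn_zero] at this
    have h5 : (Fintype.card V : ℝ) * t ^ 2 ≤ R := hR.ge
    linarith

/-- first order condition -/
theorem first_order {E : V → V → Prop} {f k : V → V → ℝ} (hk : Circ E k)
    (hmin : ∀ k', Circ E k' → Fn f k ≤ Fn f k') {d : V → V → ℝ}
    (hs : ∀ x y, ¬ E x y → d x y = 0) (hb : ∀ x, ∑ y, d x y = ∑ z, d z x)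
    (hd : ∀ x y, k x y = 0 → 0 ≤ d x y) :
    0 ≤ ∑ x, ∑ y, f x y * d x y + ∑ x, (∑ y, k x y) ^ 3 * ∑ y, d x y := by
  classical
  obtain ⟨G, hG⟩ : ∃ G, G = ∑ x, ∑ y, f x y * d x y + ∑ x, (∑ y, k x y) ^ 3 * ∑ y, d x y :=
    ⟨_, rfl⟩
  obtain ⟨C, hC⟩ : ∃ C, C = ∑ x, (3 / 2 * (∑ y, k x y) ^ 2 * (∑ y, d x y) ^ 2
      + |(∑ y, k x y) * (∑ y, d x y) ^ 3| + (∑ y, d x y) ^ 4 / 4) := ⟨_, rfl⟩
  rw [← hG]
  have hev : ∀ᶠ ε in 𝓝[>] (0 : ℝ), ∀ x y, 0 ≤ k x y + ε * d x y := by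
    rw [Filter.eventually_all]
    intro x
    rw [Filter.eventually_all]
    intro y
    rcases (hk.nonneg x y).eq_or_lt with h | h
    · have h1 := hd x y h.symm
      filter_upwards [self_mem_nhdsWithin] with ε hε
      have : (0 : ℝ) < ε := hε
      rw [← h]
      positivity
    · have hc : Tendsto (fun ε : ℝ => k x y + ε * d x y) (𝓝[>] 0) (𝓝 (k x y + 0 * d x y)) := by
        apply Tendsto.mono_left _ nhdsWithin_le_nhds
        exact Continuous.tendsto (by fun_prop) 0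
      rw [zero_mul, add_zero] at hc
      exact (hc.eventually (lt_mem_nhds h)).mono fun ε hε => hε.le
  have hev1 : ∀ᶠ ε in 𝓝[>] (0 : ℝ), ε ≤ 1 := by
    apply nhdsWithin_le_nhds
    exact eventually_le_nhds (by norm_num)
  have hmain : ∀ᶠ ε in 𝓝[>] (0 : ℝ), 0 ≤ G + ε * C := by
    filter_upwards [hev, hev1, self_mem_nhdsWithin] with ε h1 h2 h3
    have h3' : (0 : ℝ) < ε := h3
    have hcirc : Circ E (fun x y => k x y + ε * d x y) := by
      refine ⟨h1, fun x y h => ?_, fun x => ?_⟩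
      · rw [hk.supp x y h, hs x y h]; ring
      · rw [Finset.sum_add_distrib, Finset.sum_add_distrib, ← Finset.mul_sum, ← Finset.mul_sum,
          hk.bal, hb]
    have h4 := hmin _ hcirc
    have h5 : Fn f (fun x y => k x y + ε * d x y) ≤ Fn f k + ε * G + ε ^ 2 * C := by
      unfold Fn
      rw [hG, hC]
      have e1 : ∑ x, ∑ y, f x y * (k x y + ε * d x y)
          = ∑ x, ∑ y, f x y * k x y + ε * ∑ x, ∑ y, f x y * d x y := by
        rw [Finset.mul_sum, ← Finset.sum_add_distrib]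
        refine Finset.sum_congr rfl fun x _ => ?_
        rw [Finset.mul_sum, ← Finset.sum_add_distrib]
        refine Finset.sum_congr rfl fun y _ => ?_
        ring
      have e2 : ∑ x, (∑ y, (k x y + ε * d x y)) ^ 4 / 4
          ≤ ∑ x, ((∑ y, k x y) ^ 4 / 4 + ε * ((∑ y, k x y) ^ 3 * ∑ y, d x y)
            + ε ^ 2 * (3 / 2 * (∑ y, k x y) ^ 2 * (∑ y, d x y) ^ 2
              + |(∑ y, k x y) * (∑ y, d x y) ^ 3| + (∑ y, d x y) ^ 4 / 4)) := by
        refine Finset.sum_le_sum fun x _ => ?_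
        rw [Finset.sum_add_distrib, ← Finset.mul_sum]
        obtain ⟨u, hu⟩ : ∃ u, u = ∑ y, k x y := ⟨_, rfl⟩
        obtain ⟨w, hw⟩ : ∃ w, w = ∑ y, d x y := ⟨_, rfl⟩
        rw [← hu, ← hw]
        have a1 : u * w ^ 3 ≤ |u * w ^ 3| := le_abs_self _
        have a2 : 0 ≤ |u * w ^ 3| := abs_nonneg _
        have a3 : ε * (u * w ^ 3) ≤ |u * w ^ 3| := by
          calc ε * (u * w ^ 3) ≤ ε * |u * w ^ 3| := mul_le_mul_of_nonneg_left a1 h3'.le
            _ ≤ 1 * |u * w ^ 3| := mul_le_mul_of_nonneg_right h2 a2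
            _ = _ := one_mul _
        have a4 : ε ^ 2 * (w ^ 4 / 4) ≤ w ^ 4 / 4 := by
          have : ε ^ 2 ≤ 1 := by nlinarith
          calc ε ^ 2 * (w ^ 4 / 4) ≤ 1 * (w ^ 4 / 4) :=
                mul_le_mul_of_nonneg_right this (by positivity)
            _ = _ := one_mul _
        have a5 : (u + ε * w) ^ 4 / 4 = u ^ 4 / 4 + ε * (u ^ 3 * w)
            + ε ^ 2 * (3 / 2 * u ^ 2 * w ^ 2 + ε * (u * w ^ 3) + ε ^ 2 * (w ^ 4 / 4)) := by ring
        rw [a5]
        have a6 : ε ^ 2 * (3 / 2 * u ^ 2 * w ^ 2 + ε * (u * w ^ 3) + ε ^ 2 * (w ^ 4 / 4))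
            ≤ ε ^ 2 * (3 / 2 * u ^ 2 * w ^ 2 + |u * w ^ 3| + w ^ 4 / 4) :=
          mul_le_mul_of_nonneg_left (by linarith) (by positivity)
        linarith
      rw [Finset.sum_add_distrib, Finset.sum_add_distrib, ← Finset.mul_sum, ← Finset.mul_sum] at e2
      rw [e1]
      linarith
    have h6 : 0 ≤ ε * (G + ε * C) := by nlinarith
    by_contra h7
    push Not at h7
    have := mul_neg_of_pos_of_neg h3' h7
    linarith
  have hlim : Tendsto (fun ε : ℝ => G + ε * C) (𝓝[>] 0) (𝓝 (G + 0 * C)) := by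
    apply Tendsto.mono_left _ nhdsWithin_le_nhds
    exact Continuous.tendsto (by fun_prop) 0
  rw [zero_mul, add_zero] at hlim
  exact ge_of_tendsto hlim hmain

end FTri
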