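import Pool.Agent.Lib.MP_fe8cb7_co.h48.Lem
import Pool.Agent.Lib.MP_fe8cb7_co.h48.Min

/-!
# The Farkas inequality, for a set `TT` of allowed triangles (digraph form; proof of helper75)
-/

open Finset

namespace FTri

variable {V : Type*} [Fintype V]

lemma phi_comm (a b c : ℝ) : phi a b c = phi b a c := by
  unfold phi; rw [add_comm (a ^ 2), add_comm (a ^ 3)]

lemma phi_value {a b c : ℝ} (ha : 0 ≤ a) (hb : 0 ≤ b) (hc : 0 ≤ c) :
    phi a b c * (a ^ 3 + b ^ 3 + c ^ 3) = 3 / 4 * (a ^ 2 + b ^ 2) := by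
  have ha3 : 0 ≤ a ^ 3 := by positivity
  have hc3 : 0 ≤ c ^ 3 := by positivity
  have hb3 : 0 ≤ b ^ 3 := by positivity
  unfold phi
  by_cases h : a ^ 3 + b ^ 3 + c ^ 3 = 0
  · have h1 : a ^ 3 = 0 := by linarith
    have h2 : b ^ 3 = 0 := by linarith
    have h3 : a = 0 := by simpa using h1
    have h4 : b = 0 := by simpa using h2
    rw [h3, h4]; norm_num
  · field_simp

/-- rotation of the indices of a triple sum -/
lemma sum_rot (g : V → V → V → ℝ) : ∑ x, ∑ y, ∑ z, g x y z = ∑ x, ∑ y, ∑ z, g y z x := by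
  calc ∑ x, ∑ y, ∑ z, g x y z = ∑ y, ∑ x, ∑ z, g x y z := Finset.sum_comm
    _ = ∑ y, ∑ z, ∑ x, g x y z := by
        refine Finset.sum_congr rfl fun y _ => Finset.sum_comm
    _ = ∑ z, ∑ y, ∑ x, g x y z := Finset.sum_comm
    _ = ∑ z, ∑ x, ∑ y, g x y z := by
        refine Finset.sum_congr rfl fun y _ => Finset.sum_comm

open Classical in
/-- weight of the link `(x y; z)` -/
noncomputable def nu (TT : V → V → V → Prop) (k : V → V → ℝ) (x y z : V) : ℝ :=
  if TT x y z then k x y * phi (∑ w, k x w) (∑ w, k y w) (∑ w, k z w) else 0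

/-- load of the links on a pair -/
noncomputable def ld (TT : V → V → V → Prop) (k : V → V → ℝ) (x y : V) : ℝ :=
  ∑ z, (nu TT k x y z + nu TT k y z x + nu TT k z x y)

section

variable {E : V → V → Prop} {TT : V → V → V → Prop} {k : V → V → ℝ}

lemma deg_nonneg (hk : Circ E k) (x : V) : 0 ≤ ∑ w, k x w :=
  Finset.sum_nonneg fun y _ => hk.nonneg x y

lemma nu_nonneg (hk : Circ E k) (x y z : V) : 0 ≤ nu TT k x y z := by
  unfold nu
  split_ifs
  · exact mul_nonneg (hk.nonneg x y) (phi_nonneg (deg_nonneg hk _) (deg_nonneg hk _)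
      (deg_nonneg hk _))
  · exact le_rfl

lemma nu_le (hk : Circ E k) (x y z : V) :
    nu TT k x y z ≤ k x y * phi (∑ w, k x w) (∑ w, k y w) (∑ w, k z w) := by
  unfold nu
  split_ifs
  · exact le_rfl
  · exact mul_nonneg (hk.nonneg x y) (phi_nonneg (deg_nonneg hk _) (deg_nonneg hk _)
      (deg_nonneg hk _))

/-- the load on an edge not used by the circulation is at most one -/
lemma ld_le_one (hk : Circ E k) {x y : V} (h0 : k x y = 0) : ld TT k x y ≤ 1 := by
  classical
  have hne : (Finset.univ : Finset V).Nonempty := ⟨x, Finset.mem_univ x⟩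
  obtain ⟨u, hu⟩ : ∃ u : V → ℝ, u = fun x => ∑ w, k x w := ⟨_, rfl⟩
  have hu0 : ∀ x, 0 ≤ u x := fun x => by rw [hu]; exact deg_nonneg hk x
  obtain ⟨z0, -, hz0⟩ := Finset.exists_max_image Finset.univ (fun z => phi (u y) (u z) (u x)) hne
  obtain ⟨z1, -, hz1⟩ := Finset.exists_max_image Finset.univ (fun z => phi (u x) (u z) (u y)) hne
  have hA : ∑ z, nu TT k y z x ≤ u y * phi (u y) (u z0) (u x) := by
    calc ∑ z, nu TT k y z x ≤ ∑ z, k y z * phi (u y) (u z0) (u x) := by
          refine Finset.sum_le_sum fun z _ => (nu_le hk y z x).trans ?_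
          have := hz0 z (Finset.mem_univ z)
          rw [hu] at this ⊢
          exact mul_le_mul_of_nonneg_left this (hk.nonneg y z)
      _ = u y * phi (u y) (u z0) (u x) := by rw [← Finset.sum_mul, hu]
  have hB : ∑ z, nu TT k z x y ≤ u x * phi (u x) (u z1) (u y) := by
    calc ∑ z, nu TT k z x y ≤ ∑ z, k z x * phi (u x) (u z1) (u y) := by
          refine Finset.sum_le_sum fun z _ => (nu_le hk z x y).trans ?_
          have := hz1 z (Finset.mem_univ z)
          rw [hu] at this ⊢
          rw [phi_comm (∑ w, k z w)]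
          exact mul_le_mul_of_nonneg_left this (hk.nonneg z x)
      _ = u x * phi (u x) (u z1) (u y) := by rw [← Finset.sum_mul, ← hk.bal, hu]
  have hC : ∑ z, nu TT k x y z = 0 := by
    refine Finset.sum_eq_zero fun z _ => ?_
    unfold nu; rw [h0]; simp
  unfold ld
  rw [Finset.sum_add_distrib, Finset.sum_add_distrib, hC, zero_add]
  have := phi_add_le (hu0 y) (hu0 z0) (hu0 z1) (hu0 x)
  linarith

end

open Classical in
/-- THE FARKAS INEQUALITY (helper75): `d` = degrees, `s` = size of a part plus an error, `e` = minimum degree -/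
theorem farkas {E : V → V → Prop} {TT : V → V → V → Prop} {f : V → V → ℝ} {s e : ℝ}
    (hTE : ∀ x y z, TT x y z → E x y) (hrot : ∀ x y z, TT x y z → TT y z x)
    (hf : ∀ x y z, TT x y z → 0 ≤ f x y + f y z + f z x)
    (hbal : ∀ x, ((univ.filter fun y => E x y).card : ℝ) = (univ.filter fun z => E z x).card)
    (hmin : ∀ x, e ≤ (univ.filter fun y => E x y).card)
    (hes : 3 * s ≤ 4 * e)
    (hcn : ∀ x y, E x y → ((univ.filter fun w => E x w).card : ℝ) +
      (univ.filter fun w => E y w).card - s ≤ (univ.filter fun z => TT x y z).card) :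
    0 ≤ ∑ x, ∑ y, if E x y then f x y else 0 := by
  obtain ⟨k, hk, hkmin⟩ := exists_min E f
  obtain ⟨u, hu⟩ : ∃ u : V → ℝ, u = fun x => ∑ w, k x w := ⟨_, rfl⟩
  have hu' : ∀ x, ∑ w, k x w = u x := fun x => by rw [hu]
  have hu0 : ∀ x, 0 ≤ u x := fun x => by rw [hu]; exact deg_nonneg hk x
  obtain ⟨D, hD⟩ : ∃ D : V → ℝ, D = fun x => ((univ.filter fun y => E x y).card : ℝ) := ⟨_, rfl⟩
  have hD' : ∀ x, ((univ.filter fun y => E x y).card : ℝ) = D x := fun x => by rw [hD]
  -- rotation invariance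
  have hrot2 : ∀ x y z, TT x y z ↔ TT y z x := fun x y z =>
    ⟨hrot x y z, fun h => hrot z x y (hrot y z x h)⟩
  have hld0 : ∀ x y, ¬ E x y → ld TT k x y = 0 := by
    intro x y hE
    unfold ld
    refine Finset.sum_eq_zero fun z _ => ?_
    have h1 : ¬ TT x y z := fun h => hE (hTE x y z h)
    have h2 : ¬ TT y z x := fun h => h1 ((hrot2 x y z).2 h)
    have h3 : ¬ TT z x y := fun h => h2 ((hrot2 y z x).2 h)
    unfold nu
    rw [if_neg h1, if_neg h2, if_neg h3]; ring
  -- the direction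
  have hfo := first_order (d := fun x y => (if E x y then 1 else 0) - ld TT k x y) hk hkmin
    (by
      intro x y hE
      simp only [hE, if_false, hld0 x y hE]; ring)
    (by
      intro x
      rw [Finset.sum_sub_distrib, Finset.sum_sub_distrib]
      have e1 : ∑ y, (if E x y then (1 : ℝ) else 0) = ∑ z, if E z x then (1 : ℝ) else 0 := by
        rw [Finset.sum_boole, Finset.sum_boole]
        exact hbal x
      have e2 : ∑ y, ld TT k x y = ∑ z, ld TT k z x := by
        unfold ld
        rw [Finset.sum_comm]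
        refine Finset.sum_congr rfl fun y _ => Finset.sum_congr rfl fun z _ => ?_
        ring
      rw [e1, e2])
    (by
      intro x y h0
      by_cases hE : E x y
      · simp only [hE, if_true]
        have := ld_le_one (TT := TT) hk h0
        linarith
      · simp only [hE, if_false, hld0 x y hE]; norm_num)
  -- rewrite the first order condition
  have hsum1 : ∑ x, ∑ y, f x y * ((if E x y then 1 else 0) - ld TT k x y)
      = (∑ x, ∑ y, if E x y then f x y else 0) - ∑ x, ∑ y, f x y * ld TT k x y := by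
    rw [← Finset.sum_sub_distrib]
    refine Finset.sum_congr rfl fun x _ => ?_
    rw [← Finset.sum_sub_distrib]
    refine Finset.sum_congr rfl fun y _ => ?_
    split_ifs <;> ring
  have hsum2 : ∑ x, ∑ y, f x y * ld TT k x y
      = ∑ x, ∑ y, ∑ z, nu TT k x y z * (f x y + f y z + f z x) := by
    have a0 : ∑ x, ∑ y, f x y * ld TT k x y
        = (∑ x, ∑ y, ∑ z, f x y * nu TT k x y z) + (∑ x, ∑ y, ∑ z, f x y * nu TT k y z x)
          + ∑ x, ∑ y, ∑ z, f x y * nu TT k z x y := by
      rw [← Finset.sum_add_distrib, ← Finset.sum_add_distrib]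
      refine Finset.sum_congr rfl fun x _ => ?_
      rw [← Finset.sum_add_distrib, ← Finset.sum_add_distrib]
      refine Finset.sum_congr rfl fun y _ => ?_
      rw [← Finset.sum_add_distrib, ← Finset.sum_add_distrib]
      unfold ld
      rw [Finset.mul_sum]
      refine Finset.sum_congr rfl fun z _ => ?_
      ring
    have a1 : ∑ x, ∑ y, ∑ z, f x y * nu TT k y z x = ∑ x, ∑ y, ∑ z, f z x * nu TT k x y z :=
      (sum_rot (fun x y z => f z x * nu TT k x y z)).symm
    have a2 : ∑ x, ∑ y, ∑ z, f x y * nu TT k z x y = ∑ x, ∑ y, ∑ z, f y z * nu TT k x y z :=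
      sum_rot (fun x y z => f x y * nu TT k z x y)
    rw [a0, a1, a2, ← Finset.sum_add_distrib, ← Finset.sum_add_distrib]
    refine Finset.sum_congr rfl fun x _ => ?_
    rw [← Finset.sum_add_distrib, ← Finset.sum_add_distrib]
    refine Finset.sum_congr rfl fun y _ => ?_
    rw [← Finset.sum_add_distrib, ← Finset.sum_add_distrib]
    refine Finset.sum_congr rfl fun z _ => ?_
    ring
  have hsum3 : 0 ≤ ∑ x, ∑ y, ∑ z, nu TT k x y z * (f x y + f y z + f z x) := by
    refine Finset.sum_nonneg fun x _ => Finset.sum_nonneg fun y _ => Finset.sum_nonneg fun z _ => ?_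
    by_cases h : TT x y z
    · exact mul_nonneg (nu_nonneg hk x y z) (hf x y z h)
    · unfold nu; rw [if_neg h, zero_mul]
  have hsum4 : ∑ x, (∑ y, k x y) ^ 3 * ∑ y, ((if E x y then 1 else 0) - ld TT k x y)
      = ∑ x, u x ^ 3 * D x - ∑ x, ∑ y, u x ^ 3 * ld TT k x y := by
    rw [← Finset.sum_sub_distrib]
    refine Finset.sum_congr rfl fun x _ => ?_
    rw [hu', Finset.sum_sub_distrib, Finset.sum_boole, hD', mul_sub, Finset.mul_sum]
  have hsum5 : ∑ x, ∑ y, u x ^ 3 * ld TT k x y
      = ∑ x, ∑ y, ∑ z, nu TT k x y z * (u x ^ 3 + u y ^ 3 + u z ^ 3) := by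
    have a0 : ∑ x, ∑ y, u x ^ 3 * ld TT k x y
        = (∑ x, ∑ y, ∑ z, u x ^ 3 * nu TT k x y z) + (∑ x, ∑ y, ∑ z, u x ^ 3 * nu TT k y z x)
          + ∑ x, ∑ y, ∑ z, u x ^ 3 * nu TT k z x y := by
      rw [← Finset.sum_add_distrib, ← Finset.sum_add_distrib]
      refine Finset.sum_congr rfl fun x _ => ?_
      rw [← Finset.sum_add_distrib, ← Finset.sum_add_distrib]
      refine Finset.sum_congr rfl fun y _ => ?_
      rw [← Finset.sum_add_distrib, ← Finset.sum_add_distrib]
      unfold ld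
      rw [Finset.mul_sum]
      refine Finset.sum_congr rfl fun z _ => ?_
      ring
    have a1 : ∑ x, ∑ y, ∑ z, u x ^ 3 * nu TT k y z x = ∑ x, ∑ y, ∑ z, u z ^ 3 * nu TT k x y z :=
      (sum_rot (fun x y z => u z ^ 3 * nu TT k x y z)).symm
    have a2 : ∑ x, ∑ y, ∑ z, u x ^ 3 * nu TT k z x y = ∑ x, ∑ y, ∑ z, u y ^ 3 * nu TT k x y z :=
      sum_rot (fun x y z => u x ^ 3 * nu TT k z x y)
    rw [a0, a1, a2, ← Finset.sum_add_distrib, ← Finset.sum_add_distrib]
    refine Finset.sum_congr rfl fun x _ => ?_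
    rw [← Finset.sum_add_distrib, ← Finset.sum_add_distrib]
    refine Finset.sum_congr rfl fun y _ => ?_
    rw [← Finset.sum_add_distrib, ← Finset.sum_add_distrib]
    refine Finset.sum_congr rfl fun z _ => ?_
    ring
  -- the value
  have hval : ∑ x, ∑ y, k x y * (3 / 4 * (u x ^ 2 + u y ^ 2)) * (D x + D y - s)
      ≤ ∑ x, ∑ y, ∑ z, nu TT k x y z * (u x ^ 3 + u y ^ 3 + u z ^ 3) := by
    refine Finset.sum_le_sum fun x _ => Finset.sum_le_sum fun y _ => ?_
    have b1 : ∑ z, nu TT k x y z * (u x ^ 3 + u y ^ 3 + u z ^ 3)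
        = k x y * (3 / 4 * (u x ^ 2 + u y ^ 2)) * ((univ.filter fun z => TT x y z).card : ℝ) := by
      have b2 : ∀ z, nu TT k x y z * (u x ^ 3 + u y ^ 3 + u z ^ 3)
          = if TT x y z then k x y * (3 / 4 * (u x ^ 2 + u y ^ 2)) else 0 := by
        intro z
        unfold nu
        split_ifs
        · rw [hu', hu', hu', mul_assoc, phi_value (hu0 x) (hu0 y) (hu0 z)]
        · rw [zero_mul]
      rw [Finset.sum_congr rfl fun z _ => b2 z, ← Finset.sum_filter, Finset.sum_const,
        nsmul_eq_mul, mul_comm]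
    rw [b1]
    by_cases hE : E x y
    · refine mul_le_mul_of_nonneg_left ?_ ?_
      · have := hcn x y hE
        rw [hD', hD'] at this
        exact this
      · have := hk.nonneg x y
        positivity
    · rw [hk.supp x y hE]; simp
  have hval2 : ∑ x, u x ^ 3 * D x
      ≤ ∑ x, ∑ y, k x y * (3 / 4 * (u x ^ 2 + u y ^ 2)) * (D x + D y - s) := by
    have c1 : ∑ x, ∑ y, (k x y * (3 / 4 * u x ^ 2) * (D x + e - s)
          + k x y * (3 / 4 * u y ^ 2) * (D y + e - s))
        ≤ ∑ x, ∑ y, k x y * (3 / 4 * (u x ^ 2 + u y ^ 2)) * (D x + D y - s) := by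
      refine Finset.sum_le_sum fun x _ => Finset.sum_le_sum fun y _ => ?_
      have c2 := hmin x
      have c3 := hmin y
      rw [hD'] at c2 c3
      have c4 : 0 ≤ k x y * (3 / 4 * u x ^ 2) := by
        have := hk.nonneg x y
        positivity
      have c5 : 0 ≤ k x y * (3 / 4 * u y ^ 2) := by
        have := hk.nonneg x y
        positivity
      have c6 := mul_nonneg c4 (sub_nonneg.2 c3)
      have c7 := mul_nonneg c5 (sub_nonneg.2 c2)
      nlinarith
    refine le_trans ?_ c1
    have c8 : ∑ x, ∑ y, (k x y * (3 / 4 * u x ^ 2) * (D x + e - s)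
          + k x y * (3 / 4 * u y ^ 2) * (D y + e - s))
        = ∑ x, 3 / 2 * u x ^ 3 * (D x + e - s) := by
      have c9 : ∑ x, ∑ y, k x y * (3 / 4 * u x ^ 2) * (D x + e - s)
          = ∑ x, 3 / 4 * u x ^ 3 * (D x + e - s) := by
        refine Finset.sum_congr rfl fun x _ => ?_
        rw [← Finset.sum_mul, ← Finset.sum_mul, hu']; ring
      have c10 : ∑ x, ∑ y, k x y * (3 / 4 * u y ^ 2) * (D y + e - s)
          = ∑ x, 3 / 4 * u x ^ 3 * (D x + e - s) := by
        rw [Finset.sum_comm]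
        refine Finset.sum_congr rfl fun y _ => ?_
        rw [← Finset.sum_mul, ← Finset.sum_mul, ← hk.bal, hu']; ring
      calc ∑ x, ∑ y, (k x y * (3 / 4 * u x ^ 2) * (D x + e - s)
          + k x y * (3 / 4 * u y ^ 2) * (D y + e - s))
          = ∑ x, ∑ y, k x y * (3 / 4 * u x ^ 2) * (D x + e - s)
            + ∑ x, ∑ y, k x y * (3 / 4 * u y ^ 2) * (D y + e - s) := by
            rw [← Finset.sum_add_distrib]
            exact Finset.sum_congr rfl fun x _ => Finset.sum_add_distrib
        _ = ∑ x, 3 / 2 * u x ^ 3 * (D x + e - s) := by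
            rw [c9, c10, ← Finset.sum_add_distrib]
            refine Finset.sum_congr rfl fun x _ => ?_
            ring
    rw [c8]
    refine Finset.sum_le_sum fun x _ => ?_
    have c2 := hmin x
    rw [hD'] at c2
    have c3 : 0 ≤ u x ^ 3 := pow_nonneg (hu0 x) 3
    have c4 : D x ≤ 3 / 2 * (D x + e - s) := by linarith
    calc u x ^ 3 * D x ≤ u x ^ 3 * (3 / 2 * (D x + e - s)) := mul_le_mul_of_nonneg_left c4 c3
      _ = _ := by ring
  rw [hsum1, hsum2, hsum4, hsum5] at hfo
  linarith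

end FTri
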